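import Pool.Agent.Lib.MP_45c7d7_ag.Sp9

/-!
# `MP_45c7d7_ag`: quadratic Gröbner bases for groups with scalars, in every dimension

Let `G` be a finite group of diagonal matrices in `GL_{n+1}(K)` whose order is nonzero in `K`.

* If `G` contains a group `Z` of scalar matrices with `p ≤ |Z| + 1` for every prime divisor `p` of
  `|G : Z|`, then `I(X_{n,d}^G)` has a Gröbner basis of quadrics in the given coordinates, for every
  `n`.  For instance this holds if `|Z| ≥ 2` and `|G : Z| = 2^a 3^b`.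
* More generally, one can start with a subgroup `G₁` of `G` such that `g ^ b` is scalar for all
  `g ∈ G₁`, and go through the prime factors `p_1, …, p_s` of `|G : G₁|` in any order.
-/

namespace GQ49

/-- The numerical condition of the theorem for the groups `G₁ ≤ G`, where `g ^ b` is scalar for all
`g ∈ G₁`, `|G₁| = b k`, and `p_1, …, p_s` are primes with `|G| = |G₁| p_1 ⋯ p_s`:
`V_0 = ⌊(b - 1) r / b⌋`, where `r` is the number of characters `g ↦ g i i` of `G₁`, and
`V_j = ⌊V_{j-1} / p_j⌋ + p_j - 1` satisfy `V_j + P_j ≤ k P_j + 1`, where `P_j = p_{j+1} ⋯ p_s`, for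
all `0 ≤ j ≤ s`. -/
def ChainCond {K : Type*} [Field K] {n : ℕ} (G : Subgroup (GL (Fin (n + 1)) K)) : Prop :=
  ∃ G₁ ≤ G, ∃ (b k : ℕ) (ps : List ℕ), Nat.card G₁ = b * k ∧
    (∀ g ∈ G₁, ∀ i j, ((g : Matrix (Fin (n + 1)) (Fin (n + 1)) K) i i) ^ b =
      ((g : Matrix (Fin (n + 1)) (Fin (n + 1)) K) j j) ^ b) ∧
    (∀ p ∈ ps, p.Prime) ∧ Nat.card G = Nat.card G₁ * ps.prod ∧
    Chain k ((b - 1) * weights G₁ / b) ps

/-- The group `G` contains a group `Z` of scalar matrices with `p ≤ |Z| + 1` for every prime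
divisor `p` of `|G : Z|`. -/
def ScalarCond {K : Type*} [Field K] {n : ℕ} (G : Subgroup (GL (Fin (n + 1)) K)) : Prop :=
  ∃ Z ≤ G, (∀ g ∈ Z, ∀ i j, (g : Matrix (Fin (n + 1)) (Fin (n + 1)) K) i i =
      (g : Matrix (Fin (n + 1)) (Fin (n + 1)) K) j j) ∧
    ∀ p : ℕ, p.Prime → p ∣ Nat.card G / Nat.card Z → p ≤ Nat.card Z + 1

lemma ScalarCond.chainCond {K : Type*} [Field K] {n : ℕ} {G : Subgroup (GL (Fin (n + 1)) K)}
    [Finite G] (h : ScalarCond G) : ChainCond G := by
  obtain ⟨Z, hZ, hs, hp⟩ := h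
  have hfin : Finite Z := Finite.of_injective _ (Subgroup.inclusion_injective hZ)
  have hdvd : Nat.card Z ∣ Nat.card G := Subgroup.card_dvd_of_le hZ
  have hne : Nat.card G / Nat.card Z ≠ 0 := by
    have h1 : 0 < Nat.card Z := Nat.card_pos
    have h2 : 0 < Nat.card G := Nat.card_pos
    exact (Nat.div_pos (Nat.le_of_dvd h2 hdvd) h1).ne'
  refine ⟨Z, hZ, 1, Nat.card Z, (Nat.card G / Nat.card Z).primeFactorsList, (one_mul _).symm, ?_,
    fun p hp => Nat.prime_of_mem_primeFactorsList hp, ?_, ?_⟩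
  · intro g hg i j
    rw [pow_one, pow_one]; exact hs g hg i j
  · rw [Nat.prod_primeFactorsList hne, Nat.mul_div_cancel' hdvd]
  · have h0 : (1 - 1) * weights Z / 1 = 0 := by simp
    rw [h0]
    refine Chain.of_le Nat.card_pos _ 0 (fun p hp => Nat.prime_of_mem_primeFactorsList hp) ?_
      (Nat.zero_le _) (fun p hp => (Nat.prime_of_mem_primeFactorsList hp).pos) ?_
    · intro p hpm
      exact hp p (Nat.prime_of_mem_primeFactorsList hpm) (Nat.dvd_of_mem_primeFactorsList hpm)
    · exact Nat.primeFactorsList_sorted _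

end GQ49

namespace Pool.Agent.Results.MP_45c7d7_ag.ManyScalars

open MvPolynomial GQ23 GQ49

universe u

/-- If `G` satisfies `ScalarCond` or `ChainCond` then `I(X^G)` has a quadratic Gröbner basis in the
given coordinates; in particular it is generated by quadrics and it is G-quadratic, so both sides of
Q1 hold. -/
theorem result (K : Type u) [Field K] [IsAlgClosed K] (n : ℕ)
    (G : Subgroup (GL (Fin (n + 1)) K)) [Finite G] (hK : (Nat.card G : K) ≠ 0)
    (hG : ∀ g ∈ G, (g : Matrix (Fin (n + 1)) (Fin (n + 1)) K).IsDiag)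
    (h : ScalarCond G ∨ ChainCond G) :
    (∃ m : MonomialOrder.{0, 0} (Omega G), QuadraticGroebner m (toricIdeal K (Omega G))) ∧
    IsQuadratic (toricIdeal K (Omega G)) ∧ GQuadratic (toricIdeal K (Omega G)) := by
  have h' : ChainCond G := by
    rcases h with h | h
    · exact h.chainCond
    · exact h
  obtain ⟨G₁, hle, b, k, ps, h1, h2, h3, h4, h5⟩ := h'
  obtain ⟨m, hm⟩ := exists_quadraticGroebner_chain G hK hG G₁ hle b k h1 h2 ps h3 h4 h5
  exact ⟨⟨m, hm⟩, hm.isQuadratic, hm.gQuadratic⟩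

end Pool.Agent.Results.MP_45c7d7_ag.ManyScalars
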