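import Pool.Agent.Lib.MP_45c7d7_ag.Group

/-!
# `MP_45c7d7_ag`: quadratic Gröbner bases for groups with a large 2-part (helper23)

Let `G` be a finite group of diagonal matrices of order `d` in `GL_{n+1}(K)`, `char K ∤ d`, and let
`2^a` be the exact power of `2` dividing `d`.  If the elements of odd order of `G` act on the
coordinates through at most `2^a + 1` different characters (for instance if `n ≤ 2^a`, or if `G` is a
2-group), then `I(X_{n,d}^G)` has a Gröbner basis of quadrics in the given coordinates.
-/

namespace GQ23

open MvPolynomial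

universe u

/-- the number of characters of the odd part is at most the number of coordinates -/
lemma oddWeights_le {K : Type u} [Field K] {n : ℕ} (G : Subgroup (GL (Fin (n + 1)) K)) :
    oddWeights G ≤ n + 1 := by
  unfold oddWeights
  rw [← Set.image_univ]
  refine (Set.ncard_image_le (Set.toFinite _)).trans ?_
  rw [Set.ncard_univ, Nat.card_eq_fintype_card, Fintype.card_fin]

end GQ23

namespace Pool.Agent.Results.MP_45c7d7_ag.TwoPart

open MvPolynomial GQ23

universe u

/-- If `oddWeights G ≤ 2^a + 1` or `n ≤ 2^a`, where `2^a` is the exact power of `2` dividing `|G|`,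
then `I(X^G)` has a quadratic Gröbner basis in the given coordinates; in particular it is generated
by quadrics and it is G-quadratic, so both sides of Q1 hold. -/
theorem result (K : Type u) [Field K] [IsAlgClosed K] (n : ℕ)
    (G : Subgroup (GL (Fin (n + 1)) K)) [Finite G] (hK : (Nat.card G : K) ≠ 0)
    (hG : ∀ g ∈ G, (g : Matrix (Fin (n + 1)) (Fin (n + 1)) K).IsDiag)
    (h : oddWeights G ≤ 2 ^ padicValNat 2 (Nat.card G) + 1 ∨
      n ≤ 2 ^ padicValNat 2 (Nat.card G)) :
    (∃ m : MonomialOrder.{0, 0} (Omega G), QuadraticGroebner m (toricIdeal K (Omega G))) ∧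
    IsQuadratic (toricIdeal K (Omega G)) ∧ GQuadratic (toricIdeal K (Omega G)) := by
  have h' : oddWeights G ≤ 2 ^ padicValNat 2 (Nat.card G) + 1 := by
    rcases h with h | h
    · exact h
    · exact (oddWeights_le G).trans (by omega)
  obtain ⟨m, hm⟩ := exists_quadraticGroebner G hK hG h'
  exact ⟨⟨m, hm⟩, hm.isQuadratic, hm.gQuadratic⟩

end Pool.Agent.Results.MP_45c7d7_ag.TwoPart
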